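import Mathlib

set_option autoImplicit false

/-!
A family of graphs `Gk k` (k at least 2) with domatic number at most 3 whose Cartesian
square has at least `k` disjoint total dominating sets.

Vertices: the cells of a `k × k` grid (a clique) and, for each `r : Fin k → Fin k`,
a vertex `(false, r)` joined to the cells `(i, r i)` (a transversal of the rows) and a vertex
`(true, r)` joined to the cells `(r j, j)` (a transversal of the columns).
-/

namespace Pool.Agent.H356R3.Domatic

abbrev Vtx (k : ℕ) : Type := (Fin k × Fin k) ⊕ (Bool × (Fin k → Fin k))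

/-- membership of a cell in the transversal coded by a pair. -/
def inc {k : ℕ} (a : Fin k × Fin k) (b : Bool × (Fin k → Fin k)) : Prop :=
  (b.1 = false ∧ a.2 = b.2 a.1) ∨ (b.1 = true ∧ a.1 = b.2 a.2)

/-- the graph. -/
def Gk (k : ℕ) : SimpleGraph (Vtx k) where
  Adj x y :=
    match x, y with
    | Sum.inl a, Sum.inl a' => a ≠ a'
    | Sum.inl a, Sum.inr b => inc a b
    | Sum.inr b, Sum.inl a => inc a b
    | Sum.inr _, Sum.inr _ => False
  symm := ⟨by
    rintro (a | b) (a' | b') h
    · exact fun h' => h h'.symm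
    · exact h
    · exact h
    · exact h⟩
  loopless := ⟨by
    rintro (a | b) h
    · exact h rfl
    · exact h⟩

theorem adj_ll {k : ℕ} {a a' : Fin k × Fin k} (h : a ≠ a') :
    (Gk k).Adj (Sum.inl a) (Sum.inl a') := h

theorem adj_rl {k : ℕ} {b : Bool × (Fin k → Fin k)} {a : Fin k × Fin k} (h : inc a b) :
    (Gk k).Adj (Sum.inr b) (Sum.inl a) := h

/-- No isolated vertex. -/
theorem no_isolated (k : ℕ) (hk : 2 ≤ k) (v : Vtx k) : ∃ u, (Gk k).Adj v u := by
  have h0 : 0 < k := by omega
  rcases v with a | b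
  · refine ⟨Sum.inr (false, fun _ => a.2), ?_⟩
    exact Or.inl ⟨rfl, rfl⟩
  · rcases b with ⟨t, r⟩
    cases t with
    | false =>
      exact ⟨Sum.inl (⟨0, h0⟩, r ⟨0, h0⟩), Or.inl ⟨rfl, rfl⟩⟩
    | true =>
      exact ⟨Sum.inl (r ⟨0, h0⟩, ⟨0, h0⟩), Or.inr ⟨rfl, rfl⟩⟩

/-- No partition into four or more dominating sets. -/
theorem no_four (k m : ℕ) (hm : 4 ≤ m) (c : Vtx k → Fin m)
    (hc : ∀ v : Vtx k, ∀ i : Fin m, c v = i ∨ ∃ u, (Gk k).Adj v u ∧ c u = i) : False := by
  classical
  -- the four colours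
  let q0 : Fin m := ⟨0, by omega⟩
  let q1 : Fin m := ⟨1, by omega⟩
  let q2 : Fin m := ⟨2, by omega⟩
  let q3 : Fin m := ⟨3, by omega⟩
  have h01 : q0 ≠ q1 := by intro h; simp [q0, q1, Fin.ext_iff] at h
  have h23 : q2 ≠ q3 := by intro h; simp [q2, q3, Fin.ext_iff] at h
  have h20 : q2 ≠ q0 := by intro h; simp [q0, q2, Fin.ext_iff] at h
  have h21 : q2 ≠ q1 := by intro h; simp [q1, q2, Fin.ext_iff] at h
  have h30 : q3 ≠ q0 := by intro h; simp [q0, q3, Fin.ext_iff] at h
  have h31 : q3 ≠ q1 := by intro h; simp [q1, q3, Fin.ext_iff] at h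
  -- a row avoiding colours 0 and 1
  have hrow : ∃ i : Fin k, ∀ j : Fin k, c (Sum.inl (i, j)) ≠ q0 ∧ c (Sum.inl (i, j)) ≠ q1 := by
    by_contra hcon
    push Not at hcon
    have hcon' : ∀ i : Fin k, ∃ j : Fin k,
        c (Sum.inl (i, j)) = q0 ∨ c (Sum.inl (i, j)) = q1 := by
      intro i
      obtain ⟨j, hj⟩ := hcon i
      refine ⟨j, ?_⟩
      by_cases h : c (Sum.inl (i, j)) = q0
      · exact Or.inl h
      · exact Or.inr (hj h)
    choose r hr using hcon'
    have key : ∀ q : Fin m, q ≠ q0 → q ≠ q1 → c (Sum.inr (false, r)) = q := by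
      intro q hq0 hq1
      rcases hc (Sum.inr (false, r)) q with h | ⟨u, hu, hcu⟩
      · exact h
      · exfalso
        rcases u with a | b
        · have hinc : inc a (false, r) := hu
          rcases hinc with ⟨_, h2⟩ | ⟨h1, _⟩
          · have ha : a = (a.1, r a.1) := Prod.ext rfl h2
            rw [ha] at hcu
            rcases hr a.1 with h | h
            · exact hq0 (hcu.symm.trans h)
            · exact hq1 (hcu.symm.trans h)
          · exact absurd h1 (by simp)
        · exact hu
    exact h23 ((key q2 h20 h21).symm.trans (key q3 h30 h31))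
  obtain ⟨i, hi⟩ := hrow
  -- now every column contains a cell of colour other than 0 and 1, namely in row i
  let s : Fin k → Fin k := fun _ => i
  have key : ∀ q : Fin m, q = q0 ∨ q = q1 → c (Sum.inr (true, s)) = q := by
    intro q hq
    rcases hc (Sum.inr (true, s)) q with h | ⟨u, hu, hcu⟩
    · exact h
    · exfalso
      rcases u with a | b
      · have hinc : inc a (true, s) := hu
        rcases hinc with ⟨h1, _⟩ | ⟨_, h2⟩
        · exact absurd h1 (by simp)
        · have ha : a = (i, a.2) := Prod.ext h2 rfl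
          rw [ha] at hcu
          rcases hq with h | h
          · exact (hi a.2).1 (hcu.trans h)
          · exact (hi a.2).2 (hcu.trans h)
      · exact hu
  exact h01 ((key q0 (Or.inl rfl)).symm.trans (key q1 (Or.inr rfl)))

/-- coordinate selector: `false` the row index, `true` the column index. -/
def coord {k : ℕ} (t : Bool) (a : Fin k × Fin k) : Fin k :=
  match t with
  | false => a.1
  | true => a.2

/-- the colouring of the square. -/
def col {k : ℕ} (h0 : 0 < k) (p : Vtx k × Vtx k) : Fin k :=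
  match p with
  | (Sum.inl a, Sum.inl _) => coord false a
  | (Sum.inl a, Sum.inr b) => coord b.1 a
  | (Sum.inr b, Sum.inl a) => coord (!b.1) a
  | (Sum.inr _, Sum.inr _) => ⟨0, h0⟩

/-- every transversal contains, for every value `i`, a cell with the relevant coordinate `i`. -/
theorem transversal {k : ℕ} (b : Bool × (Fin k → Fin k)) (i : Fin k) :
    ∃ a : Fin k × Fin k, inc a b ∧ coord b.1 a = i := by
  rcases b with ⟨t, r⟩
  cases t with
  | false => exact ⟨(i, r i), Or.inl ⟨rfl, rfl⟩, rfl⟩
  | true => exact ⟨(r i, i), Or.inr ⟨rfl, rfl⟩, rfl⟩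

/-- a cell different from `a` with prescribed coordinate. -/
theorem other {k : ℕ} (hk : 2 ≤ k) (t : Bool) (a : Fin k × Fin k) (i : Fin k) :
    ∃ x : Fin k × Fin k, a ≠ x ∧ coord t x = i := by
  have : Nontrivial (Fin k) := Fin.nontrivial_iff_two_le.mpr hk
  cases t with
  | false =>
    obtain ⟨j, hj⟩ := exists_ne a.2
    refine ⟨(i, j), ?_, rfl⟩
    intro h
    exact hj (by rw [h])
  | true =>
    obtain ⟨j, hj⟩ := exists_ne a.1
    refine ⟨(j, i), ?_, rfl⟩
    intro h
    exact hj (by rw [h])

/-- The square has `k` disjoint total dominating sets. -/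
theorem square_total (k : ℕ) (hk : 2 ≤ k) (x : Vtx k × Vtx k) (i : Fin k) :
    ∃ y : Vtx k × Vtx k, (SimpleGraph.boxProd (Gk k) (Gk k)).Adj x y ∧
      col (by omega : 0 < k) y = i := by
  rcases x with ⟨x1, x2⟩
  rcases x1 with a | b
  · -- first coordinate a cell
    rcases x2 with a' | b'
    · obtain ⟨x, hx, hc⟩ := other hk false a i
      refine ⟨(Sum.inl x, Sum.inl a'), ?_, hc⟩
      rw [SimpleGraph.boxProd_adj]
      exact Or.inl ⟨hx, rfl⟩
    · obtain ⟨x, hx, hc⟩ := other hk b'.1 a i
      refine ⟨(Sum.inl x, Sum.inr b'), ?_, hc⟩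
      rw [SimpleGraph.boxProd_adj]
      exact Or.inl ⟨hx, rfl⟩
  · rcases x2 with a' | b'
    · obtain ⟨x, hx, hc⟩ := other hk (!b.1) a' i
      refine ⟨(Sum.inr b, Sum.inl x), ?_, hc⟩
      rw [SimpleGraph.boxProd_adj]
      exact Or.inr ⟨hx, rfl⟩
    · by_cases hbb : b.1 = b'.1
      · obtain ⟨a, ha, hc⟩ := transversal b i
        refine ⟨(Sum.inl a, Sum.inr b'), ?_, ?_⟩
        · rw [SimpleGraph.boxProd_adj]
          exact Or.inl ⟨ha, rfl⟩
        · show coord b'.1 a = i
          rw [← hbb]
          exact hc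
      · obtain ⟨a, ha, hc⟩ := transversal b' i
        refine ⟨(Sum.inr b, Sum.inl a), ?_, ?_⟩
        · rw [SimpleGraph.boxProd_adj]
          exact Or.inr ⟨ha, rfl⟩
        · show coord (!b.1) a = i
          have : (!b.1) = b'.1 := by
            cases h1 : b.1 <;> cases h2 : b'.1 <;> simp_all
          rw [this]
          exact hc

end Pool.Agent.H356R3.Domatic
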